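import Mathlib
import Pool.Agent.U50.MC.Stm

/-!
# Project MC, package PAT

Along the windows a basic nilsequence has at most `A ^ L` patterns.
-/

set_option autoImplicit false

namespace Pool.Agent.U894.MC

open Polynomial Pool.Agent.U50.MC

/-- The product of two polynomial vectors. -/
noncomputable def opP {d : ℕ} (G : Nil d) (x y : Fin d → ℝ[X]) : Fin d → ℝ[X] :=
  fun k => x k + y k + MvPolynomial.aeval (Sum.elim x y) (G.P k)

theorem eval_aeval {σ : Type} (f : σ → ℝ[X]) (p : MvPolynomial σ ℝ) (r : ℝ) :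
    (MvPolynomial.aeval f p).eval r = MvPolynomial.eval (fun i => (f i).eval r) p := by
  induction p using MvPolynomial.induction_on with
  | C a => simp
  | add p q hp hq => simp [hp, hq]
  | mul_X p i hp => simp [hp]

theorem eval_opP {d : ℕ} (G : Nil d) (x y : Fin d → ℝ[X]) (r : ℝ) :
    (fun k => (opP G x y k).eval r) = G.op (fun k => (x k).eval r) (fun k => (y k).eval r) := by
  funext k
  unfold opP Nil.op rawOp
  simp only [eval_add, eval_aeval]
  have h : (fun i => (Sum.elim x y i).eval r) =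
      Sum.elim (fun k => (x k).eval r) (fun k => (y k).eval r) := by
    funext i
    cases i <;> rfl
  rw [h]

theorem nn_shift (R L i j : ℕ) : nn (R + i) (R + L + j) = 64 ^ R * nn i (L + j) := by
  unfold nn
  rw [mul_add, ← pow_add, ← pow_add, add_assoc R L j]

theorem nn_le {L i j : ℕ} (hi : i < L) (hj : j < L) : nn i (L + j) ≤ 64 ^ (2 * L) := by
  unfold nn
  have h1 : 64 ^ i ≤ 64 ^ (2 * L - 1) := Nat.pow_le_pow_right (by norm_num) (by omega)
  have h2 : 64 ^ (L + j) ≤ 64 ^ (2 * L - 1) := Nat.pow_le_pow_right (by norm_num) (by omega)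
  have h3 : 64 ^ (2 * L) = 64 ^ (2 * L - 1) * 64 := by
    rw [← pow_succ]; congr 1; omega
  omega

theorem nn_pos (i j : ℕ) : 1 ≤ nn i j := by
  unfold nn
  have h : 0 < 64 ^ i := by positivity
  exact (Nat.succ_le_of_lt h).trans (Nat.le_add_right _ _)

/-- bound for the sum of the powers -/
theorem sum_pow_le (D1 L n : ℕ) (h1 : 1 ≤ n) (h : n ≤ 64 ^ (2 * L)) :
    ∑ t : Fin (D1 + 1), (n : ℝ) ^ (t : ℕ) ≤ ((D1 + 1) * 64 ^ (2 * L * D1) : ℕ) := by
  have hb : ∀ t ∈ (Finset.univ : Finset (Fin (D1 + 1))),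
      (n : ℝ) ^ (t : ℕ) ≤ ((64 ^ (2 * L * D1) : ℕ) : ℝ) := by
    intro t _
    have h2 : n ^ (t : ℕ) ≤ 64 ^ (2 * L * D1) := by
      calc n ^ (t : ℕ) ≤ n ^ D1 := Nat.pow_le_pow_right h1 (by have := t.isLt; omega)
        _ ≤ (64 ^ (2 * L)) ^ D1 := Nat.pow_le_pow_left h D1
        _ = 64 ^ (2 * L * D1) := by rw [← pow_mul]
    exact_mod_cast h2
  refine (Finset.sum_le_card_nsmul _ _ _ hb).trans ?_
  rw [Finset.card_univ, Fintype.card_fin, nsmul_eq_mul]
  push_cast
  exact le_refl _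

theorem Q_le (C D D1 L : ℕ) (hL : 1 ≤ L) :
    (C + 1) * ((D1 + 1) * 64 ^ (2 * L * D1)) ^ (D + 1) + 1 ≤
      ((C + 2) * ((D1 + 1) * 64 ^ (2 * D1)) ^ (D + 1)) ^ L := by
  have hM : (D1 + 1) * 64 ^ (2 * L * D1) ≤ ((D1 + 1) * 64 ^ (2 * D1)) ^ L := by
    rw [mul_pow, ← pow_mul]
    refine Nat.mul_le_mul (Nat.le_self_pow (by omega) _) (le_of_eq ?_)
    congr 1; ring
  have hM1 : 1 ≤ ((D1 + 1) * 64 ^ (2 * L * D1)) ^ (D + 1) := Nat.one_le_pow _ _ (by positivity)
  calc (C + 1) * ((D1 + 1) * 64 ^ (2 * L * D1)) ^ (D + 1) + 1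
      ≤ (C + 2) * ((D1 + 1) * 64 ^ (2 * L * D1)) ^ (D + 1) := by nlinarith
    _ ≤ (C + 2) ^ L * (((D1 + 1) * 64 ^ (2 * D1)) ^ L) ^ (D + 1) :=
        Nat.mul_le_mul (Nat.le_self_pow (by omega) _) (Nat.pow_le_pow_left hM _)
    _ = ((C + 2) * ((D1 + 1) * 64 ^ (2 * D1)) ^ (D + 1)) ^ L := by
        generalize (D1 + 1) * 64 ^ (2 * D1) = z
        rw [mul_pow, ← pow_mul, ← pow_mul, mul_comm L (D + 1)]

theorem t_PAT : S_HOM → S_RED → S_UNIF → S_PAT := by
  intro hHOM hRED hUNIF N hN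
  obtain ⟨d, G, F, β, a, hF, hβ, hNF⟩ := hN
  obtain ⟨⟨B, hB⟩, hU⟩ := hUNIF d G F hF
  refine ⟨B, fun ε hε => ?_⟩
  obtain ⟨C, D, hCD⟩ := hU ε hε
  obtain ⟨q0, hq0⟩ := hHOM d G (β 0) (hβ 0)
  obtain ⟨q1, hq1⟩ := hHOM d G (β 1) (hβ 1)
  set g : Fin d → ℝ[X] := opP G q0 (opP G q1 (fun k => Polynomial.C (a k))) with hg
  -- values along the diagonal
  have hval : ∀ n : ℕ, N (fun _ => (n : ℤ)) = F (fun k => (g k).eval (n : ℝ)) := by
    intro n
    rw [hNF]
    simp only [List.ofFn_succ, List.ofFn_zero, List.foldr_cons, List.foldr_nil]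
    rw [hg, eval_opP, eval_opP]
    have e0 : β 0 (n : ℤ) = fun k => (q0 k).eval (n : ℝ) := funext (hq0 n)
    have e1 : β 1 (n : ℤ) = fun k => (q1 k).eval (n : ℝ) := funext (hq1 n)
    have ea : (fun k => (Polynomial.C (a k)).eval (n : ℝ)) = a := by funext k; simp
    rw [ea, ← e0, ← e1]
    rfl
  obtain ⟨D1, hD1⟩ := hRED d G (Finset.univ.sup fun k => (g k).natDegree)
  refine ⟨(((C + 2) * ((D1 + 1) * 64 ^ (2 * D1)) ^ (D + 1)) ^ ((D1 + 1) * d)), fun L hL => ?_⟩
  classical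
  set M : ℕ := (D1 + 1) * 64 ^ (2 * L * D1) with hM
  have hMpos : 0 < M := by positivity
  set Q : ℕ := (C + 1) * M ^ (D + 1) with hQ
  have hQpos : 0 < Q := by positivity
  let Yc : (Fin d → Fin (D1 + 1) → Fin (Q + 1)) → Fin L → Fin L → ℂ := fun c i j =>
    F (fun k => ∑ t : Fin (D1 + 1), ((c k t : ℕ) : ℝ) / Q * (nn i (L + j) : ℝ) ^ (t : ℕ))
  refine ⟨Finset.univ.image Yc, ?_, ?_, ?_⟩
  · refine Finset.card_image_le.trans ?_
    rw [Finset.card_univ, Fintype.card_fun, Fintype.card_fun, Fintype.card_fin, Fintype.card_fin,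
      Fintype.card_fin, ← pow_mul, ← pow_mul, mul_comm ((D1 + 1) * d) L, pow_mul _ L]
    exact Nat.pow_le_pow_left (Q_le C D D1 L hL) _
  · intro y hy i j
    obtain ⟨c, _, rfl⟩ := Finset.mem_image.1 hy
    exact hB _
  · intro R
    obtain ⟨γ, y, hy, hdeg, hco⟩ := hD1 (fun k => (g k).comp (Polynomial.C (64 ^ R : ℝ) * X))
      (by
        intro k
        refine natDegree_comp_le.trans ?_
        have h1 : (Polynomial.C (64 ^ R : ℝ) * X).natDegree ≤ 1 := (natDegree_C_mul_le _ _).trans natDegree_X_le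
        calc (g k).natDegree * (Polynomial.C (64 ^ R : ℝ) * X).natDegree
            ≤ (g k).natDegree * 1 := Nat.mul_le_mul_left _ h1
          _ = (g k).natDegree := mul_one _
          _ ≤ _ := Finset.le_sup (f := fun k => (g k).natDegree) (Finset.mem_univ k))
    have hfl : ∀ k (t : Fin (D1 + 1)), ⌊(y k).coeff t * Q⌋₊ < Q + 1 := by
      intro k t
      have h1 := (hco k t).2
      have h2 : (y k).coeff t * Q ≤ Q := by
        have : (0 : ℝ) < Q := by exact_mod_cast hQpos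
        nlinarith
      have h3 : ⌊(y k).coeff t * Q⌋₊ ≤ ⌊(Q : ℝ)⌋₊ := Nat.floor_le_floor h2
      rw [Nat.floor_natCast] at h3
      omega
    refine ⟨Yc (fun k t => ⟨⌊(y k).coeff t * Q⌋₊, hfl k t⟩),
      Finset.mem_image_of_mem _ (Finset.mem_univ _), fun i j => ?_⟩
    -- the value of `N`
    set n' : ℕ := nn i (L + j) with hn'
    have h1n : 1 ≤ n' := nn_pos _ _
    have hnle : n' ≤ 64 ^ (2 * L) := nn_le i.isLt j.isLt
    have hNv : N (pt R L i j) = F (fun k => (y k).eval (n' : ℝ)) := by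
      have e1 : N (pt R L i j) = F (fun k => (g k).eval ((nn (R + i) (R + L + j) : ℕ) : ℝ)) :=
        hval _
      rw [e1, nn_shift]
      have hy' : y = opP G (fun k => (g k).comp (Polynomial.C (64 ^ R : ℝ) * X))
          (fun k => (γ k).map (Int.castRingHom ℝ)) := by
        funext k; exact hy k
      rw [hy', eval_opP G (fun k => (g k).comp (Polynomial.C (64 ^ R : ℝ) * X))]
      have e2 : (fun k => ((γ k).map (Int.castRingHom ℝ)).eval (n' : ℝ)) =
          fun k => (((γ k).eval (n' : ℤ) : ℤ) : ℝ) := by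
        funext k
        have := Polynomial.eval_intCast_map (Int.castRingHom ℝ) (γ k) (n' : ℤ)
        simpa using this
      rw [e2, hF.2]
      congr 1
      funext k
      rw [eval_comp]
      congr 1
      simp [hn']
    rw [hNv]
    -- the approximation
    have hey : ∀ k, (y k).eval (n' : ℝ) =
        ∑ t : Fin (D1 + 1), (y k).coeff t * (n' : ℝ) ^ (t : ℕ) := by
      intro k
      rw [eval_eq_sum_range' (Nat.lt_succ_of_le (hdeg k)), Finset.sum_range]
    have hQr : (0 : ℝ) < Q := by exact_mod_cast hQpos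
    have hsum : ∑ t : Fin (D1 + 1), (n' : ℝ) ^ (t : ℕ) ≤ (M : ℝ) := sum_pow_le D1 L n' h1n hnle
    have hpw : ∀ t : ℕ, (0 : ℝ) ≤ (n' : ℝ) ^ t := fun t => by positivity
    refine hCD (M : ℝ) (by exact_mod_cast hMpos) _ _ ?_ ?_ ?_
    · intro k
      rw [hey]
      refine (Finset.abs_sum_le_sum_abs _ _).trans (le_trans (Finset.sum_le_sum ?_) hsum)
      intro t _
      rw [abs_mul, abs_of_nonneg (hco k t).1, abs_of_nonneg (hpw t)]
      exact mul_le_of_le_one_left (hpw t) (hco k t).2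
    · intro k
      refine (Finset.abs_sum_le_sum_abs _ _).trans (le_trans (Finset.sum_le_sum ?_) hsum)
      intro t _
      have h3 : ((⌊(y k).coeff t * Q⌋₊ : ℕ) : ℝ) / Q ≤ 1 := by
        rw [div_le_one hQr]
        exact_mod_cast Nat.lt_succ_iff.1 (hfl k t)
      have h4 : (0 : ℝ) ≤ ((⌊(y k).coeff t * Q⌋₊ : ℕ) : ℝ) / Q := by positivity
      rw [abs_mul, abs_of_nonneg h4, abs_of_nonneg (hpw t)]
      exact mul_le_of_le_one_left (hpw t) h3
    · intro k
      have h5 : |(y k).eval (n' : ℝ) -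
          ∑ t : Fin (D1 + 1), ((⌊(y k).coeff t * Q⌋₊ : ℕ) : ℝ) / Q * (n' : ℝ) ^ (t : ℕ)| ≤
            M / Q := by
        rw [hey, ← Finset.sum_sub_distrib]
        refine (Finset.abs_sum_le_sum_abs _ _).trans ?_
        have h6 : ∀ t ∈ (Finset.univ : Finset (Fin (D1 + 1))),
            |(y k).coeff t * (n' : ℝ) ^ (t : ℕ) -
              ((⌊(y k).coeff t * Q⌋₊ : ℕ) : ℝ) / Q * (n' : ℝ) ^ (t : ℕ)| ≤
                (n' : ℝ) ^ (t : ℕ) / Q := by
          intro t _
          rw [← sub_mul, abs_mul, abs_of_nonneg (hpw t)]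
          have h7 : (⌊(y k).coeff t * Q⌋₊ : ℝ) ≤ (y k).coeff t * Q :=
            Nat.floor_le (mul_nonneg (hco k t).1 hQr.le)
          have h8 : (y k).coeff t * Q < (⌊(y k).coeff t * Q⌋₊ : ℝ) + 1 := Nat.lt_floor_add_one _
          have h9 : |(y k).coeff t - (⌊(y k).coeff t * Q⌋₊ : ℝ) / Q| ≤ 1 / Q := by
            rw [abs_le]
            constructor
            · rw [neg_le_sub_iff_le_add, div_le_iff₀ hQr, add_mul, div_mul_cancel₀ _ hQr.ne']
              linarith
            · rw [sub_le_iff_le_add, ← add_div, le_div_iff₀ hQr]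
              linarith
          calc |(y k).coeff t - (⌊(y k).coeff t * Q⌋₊ : ℝ) / Q| * (n' : ℝ) ^ (t : ℕ)
              ≤ 1 / Q * (n' : ℝ) ^ (t : ℕ) := mul_le_mul_of_nonneg_right h9 (hpw t)
            _ = (n' : ℝ) ^ (t : ℕ) / Q := by ring
        refine (Finset.sum_le_sum h6).trans ?_
        rw [← Finset.sum_div]
        exact div_le_div_of_nonneg_right hsum hQr.le
      have hMr : (0 : ℝ) < M := by exact_mod_cast hMpos
      have hCM : (0 : ℝ) ≤ (C : ℝ) * (M : ℝ) ^ D := by positivity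
      refine (mul_le_mul_of_nonneg_right h5 hCM).trans ?_
      rw [div_mul_eq_mul_div, div_le_one hQr, hQ]
      push_cast
      have h10 : (0 : ℝ) < (M : ℝ) ^ D := by positivity
      rw [pow_succ]
      nlinarith [mul_pos h10 hMr]

end Pool.Agent.U894.MC
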